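import Mathlib

/-!
Combinatorics on `κ` and `λ⁺` for `λ ≥ κ` with `λ ^ l ≤ λ` for `l < κ`: bounded sets, counting small
sets, closure points, ranks; `λ = 2 ^< κ` is such a cardinal.
-/

set_option autoImplicit false

namespace Pool.Agent.H12.Thread

open Cardinal Set

/-- The well-ordered set of order type `l⁺`. -/
abbrev Om (l : Cardinal.{0}) : Type := (Order.succ l).ord.ToType

/-- The well-ordered set of order type `κ`. -/
abbrev KK (κ : Cardinal.{0}) : Type := κ.ord.ToType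

variable {κ l : Cardinal.{0}}

theorem mk_Om : #(Om l) = Order.succ l := by simp

theorem mk_KK : #(KK κ) = κ := by simp

theorem mk_Iio_Om (a : Om l) : #(Set.Iio a) ≤ l := by
  have := Cardinal.mk_Iio_lt a (by simp)
  rw [mk_Om] at this
  exact Order.lt_succ_iff.1 this

theorem mk_Iio_KK (a : KK κ) : #(Set.Iio a) < κ := by
  have := Cardinal.mk_Iio_lt a (by simp)
  rwa [mk_KK] at this

theorem bd_Om (hl : ℵ₀ ≤ l) {s : Set (Om l)} (hs : #s ≤ l) : ∃ b, ∀ x ∈ s, x < b := by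
  have h : ¬ IsCofinal s := by
    intro h
    have := Order.cof_le h
    rw [Ordinal.cof_toType, (Cardinal.isRegular_succ hl).cof_ord] at this
    exact absurd (this.trans hs) (Order.lt_succ l).not_ge
  exact not_isCofinal_iff.1 h

theorem bd_KK (hκ : κ.IsRegular) {s : Set (KK κ)} (hs : #s < κ) : ∃ b, ∀ x ∈ s, x < b := by
  have h : ¬ IsCofinal s := by
    intro h
    have := Order.cof_le h
    rw [Ordinal.cof_toType, hκ.cof_ord] at this
    exact absurd hs this.not_gt
  exact not_isCofinal_iff.1 h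

/-- `κ ≤ 2 ^< κ` -/
theorem le_two_powerlt : κ ≤ 2 ^< κ := by
  by_contra h
  have h1 := le_powerlt 2 (not_le.1 h)
  exact h1.not_gt (Cardinal.cantor _)

/-- `(2 ^< κ) ^ m ≤ 2 ^< κ` for `m < κ`, `κ` regular -/
theorem powerlt_pow (hκ : κ.IsRegular) {m : Cardinal.{0}} (hm : m < κ) :
    (2 ^< κ) ^ m ≤ 2 ^< κ := by
  classical
  let D : Type := {s : Set (KK κ) // ∃ b, ∀ x ∈ s, x < b}
  have h1 : 2 ^< κ ≤ #D := by
    rw [powerlt_le]
    intro n hn
    obtain ⟨A, rfl⟩ : ∃ A : Type, #A = n := ⟨n.out, mk_out n⟩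
    obtain ⟨i⟩ : Nonempty (A ↪ KK κ) := by
      rw [← Cardinal.le_def, mk_KK]; exact hn.le
    obtain ⟨b, hb⟩ := bd_KK hκ (s := Set.range i) (mk_range_le.trans_lt hn)
    rw [← Cardinal.mk_set]
    refine Cardinal.mk_le_of_injective
      (f := fun S : Set A => (⟨i '' S, b, by rintro _ ⟨x, _, rfl⟩; exact hb _ ⟨x, rfl⟩⟩ : D)) ?_
    intro S T hST
    exact i.injective.image_injective (congrArg Subtype.val hST)
  obtain ⟨A, rfl⟩ : ∃ A : Type, #A = m := ⟨m.out, mk_out m⟩
  have h2 : (2 ^< κ) ^ #A ≤ #(A → D) := by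
    rw [← Cardinal.power_def]
    exact Cardinal.power_le_power_right h1
  have hb : ∀ f : A → D, ∃ b : KK κ, ∀ a, ∀ x ∈ (f a).1, x < b := by
    intro f
    choose c hc using fun a => (f a).2
    obtain ⟨b, hb⟩ := bd_KK hκ (s := Set.range c) (mk_range_le.trans_lt hm)
    exact ⟨b, fun a x hx => (hc a x hx).trans (hb _ ⟨a, rfl⟩)⟩
  choose b hb using hb
  let F : (A → D) → Σ b : KK κ, Set (A × Set.Iio b) := fun f =>
    ⟨b f, {y | y.2.1 ∈ (f y.1).1}⟩
  have key : ∀ (u v : Σ b : KK κ, Set (A × Set.Iio b)), u = v → ∀ (a : A) (y : KK κ)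
      (hy : y < u.1) (hy' : y < v.1),
      ((a, ⟨y, hy⟩) : A × Set.Iio u.1) ∈ u.2 ↔ ((a, ⟨y, hy'⟩) : A × Set.Iio v.1) ∈ v.2 := by
    rintro u v rfl a y hy hy'
    rfl
  have hF : Function.Injective F := by
    intro f g hfg
    have hbb : b f = b g := congrArg Sigma.fst hfg
    funext a
    apply Subtype.ext
    ext y
    constructor
    · intro hy
      have h3 := hb f a y hy
      exact (key _ _ hfg a y h3 (lt_of_lt_of_eq h3 hbb)).1 hy
    · intro hy
      have h3 := hb g a y hy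
      exact (key _ _ hfg a y (lt_of_lt_of_eq h3 hbb.symm) h3).2 hy
  refine (h2.trans (Cardinal.mk_le_of_injective hF)).trans ?_
  rw [Cardinal.mk_sigma]
  calc Cardinal.sum (fun b : KK κ => #(Set (A × Set.Iio b)))
      ≤ Cardinal.sum (fun _ : KK κ => 2 ^< κ) := by
        refine Cardinal.sum_le_sum _ _ fun b => ?_
        rw [Cardinal.mk_set, ← Cardinal.mul_def]
        exact le_powerlt 2 (mul_lt_of_lt hκ.aleph0_le hm (mk_Iio_KK b))
    _ = κ * 2 ^< κ := by rw [Cardinal.sum_const']; rw [mk_KK]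
    _ ≤ 2 ^< κ * 2 ^< κ := mul_le_mul_left le_two_powerlt _
    _ = 2 ^< κ := Cardinal.mul_eq_self (hκ.aleph0_le.trans le_two_powerlt)

/-- counting the small subsets of a set of size at most `l` -/
theorem count_small (hκ : κ.IsRegular) (hκl : κ ≤ l) (hpow : ∀ m < κ, l ^ m ≤ l) {X : Type}
    (hX : #X ≤ l) : #{s : Set X // #s < κ} ≤ l := by
  classical
  have hl : ℵ₀ ≤ l := hκ.aleph0_le.trans hκl
  have hi : ∀ s : {s : Set X // #s < κ}, Nonempty (s.1 ↪ KK κ) := fun s => by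
    rw [← Cardinal.le_def, mk_KK]; exact s.2.le
  have hi' : ∀ s : {s : Set X // #s < κ}, ∃ (i : s.1 → KK κ) (b : KK κ),
      Function.Injective i ∧ ∀ x, i x < b := fun s => by
    obtain ⟨i⟩ := hi s
    obtain ⟨b, hb⟩ := bd_KK hκ (s := Set.range i) (mk_range_le.trans_lt s.2)
    exact ⟨i, b, i.injective, fun x => hb _ ⟨x, rfl⟩⟩
  choose i b hinj hb using hi'
  let f : {s : Set X // #s < κ} → Σ b : KK κ, (Set.Iio b → Option X) := fun s =>
    ⟨b s, fun y => if h : ∃ x : s.1, i s x = y.1 then some h.choose.1 else none⟩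
  have hf1 : ∀ s x, x ∈ s.1 ↔ ∃ y, (f s).2 y = some x := by
    intro s x
    constructor
    · intro hx
      refine ⟨⟨i s ⟨x, hx⟩, hb s _⟩, ?_⟩
      have h : ∃ x' : s.1, i s x' = i s ⟨x, hx⟩ := ⟨_, rfl⟩
      simp only [f, dif_pos h]
      exact congrArg (fun w : s.1 => some w.1) (hinj s h.choose_spec)
    · rintro ⟨y, hy⟩
      simp only [f] at hy
      split_ifs at hy with h
      rw [← Option.some.inj hy]
      exact h.choose.2
  have hf : Function.Injective f := by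
    intro s t hst
    apply Subtype.ext
    ext x
    rw [hf1 s x, hf1 t x, hst]
  refine (Cardinal.mk_le_of_injective hf).trans ?_
  rw [Cardinal.mk_sigma]
  calc Cardinal.sum (fun b : KK κ => #(Set.Iio b → Option X))
      ≤ Cardinal.sum (fun _ : KK κ => l) := by
        refine Cardinal.sum_le_sum _ _ fun b => ?_
        rw [← Cardinal.power_def]
        refine (Cardinal.power_le_power_right ?_).trans (hpow _ (mk_Iio_KK b))
        rw [Cardinal.mk_option]
        exact (add_le_add hX (one_le_aleph0.trans hl)).trans (Cardinal.add_eq_self hl).le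
    _ = κ * l := by rw [Cardinal.sum_const']; rw [mk_KK]
    _ ≤ l * l := mul_le_mul_left hκl _
    _ = l := Cardinal.mul_eq_self hl

/-- A point of cofinality at least `κ` closed under a function. -/
theorem exists_closed (hκ : κ.IsRegular) (hκl : κ ≤ l) (h : Om l → Om l) :
    ∃ δ : Om l, (∀ s : Set (Om l), #s < κ → (∀ x ∈ s, x < δ) → ∃ γ < δ, ∀ x ∈ s, x < γ) ∧
      ∀ γ < δ, h γ < δ := by
  classical
  have hl : ℵ₀ ≤ l := hκ.aleph0_le.trans hκl
  have hbd : ∀ s : Set (Om l), ∃ b, #s ≤ l → ∀ x ∈ s, x < b := by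
    intro s
    by_cases hs : #s ≤ l
    · obtain ⟨b, hb⟩ := bd_Om hl hs
      exact ⟨b, fun _ => hb⟩
    · have : Nonempty (Om l) := by
        rw [← Cardinal.mk_ne_zero_iff, mk_Om]
        exact (bot_le.trans_lt (Order.lt_succ l)).ne'
      exact ⟨Classical.arbitrary _, fun h' => absurd h' hs⟩
  choose B hB using hbd
  -- a monotone bound for `h`
  let h' : Om l → Om l := fun x => B (h '' Set.Iic x)
  have hh' : ∀ x, ∀ y ≤ x, h y < h' x := by
    intro x y hy
    refine hB _ ?_ _ ⟨y, hy, rfl⟩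
    refine mk_image_le.trans ?_
    have : Set.Iic x = insert x (Set.Iio x) := by
      ext z; simp [le_iff_lt_or_eq, or_comm]
    rw [this]
    refine mk_insert_le.trans ?_
    calc #(Set.Iio x) + 1 ≤ l + l := add_le_add (mk_Iio_Om x)
          (one_le_aleph0.trans hl)
      _ = l := Cardinal.add_eq_self hl
  let S : (i : KK κ) → ((j : KK κ) → j < i → Om l) → Set (Om l) := fun i G =>
    {x | ∃ j, ∃ hj : j < i, x = G j hj ∨ x = h' (G j hj)}
  let g : KK κ → Om l := (wellFounded_lt (α := KK κ)).fix fun i G => B (S i G)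
  have hg : ∀ i, g i = B (S i fun j _ => g j) := fun i =>
    (wellFounded_lt (α := KK κ)).fix_eq _ i
  have hSc : ∀ i, #(S i fun j _ => g j) ≤ l := by
    intro i
    have : (S i fun j _ => g j) ⊆ (g '' Set.Iio i) ∪ ((fun j => h' (g j)) '' Set.Iio i) := by
      rintro x ⟨j, hj, rfl | rfl⟩
      · exact Or.inl ⟨j, hj, rfl⟩
      · exact Or.inr ⟨j, hj, rfl⟩
    refine (mk_le_mk_of_subset this).trans ((mk_union_le _ _).trans ?_)
    calc _ ≤ l + l := add_le_add (mk_image_le.trans ((mk_Iio_KK i).le.trans hκl))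
          (mk_image_le.trans ((mk_Iio_KK i).le.trans hκl))
      _ = l := Cardinal.add_eq_self hl
  have hg1 : ∀ j i, j < i → g j < g i := by
    intro j i hj
    rw [hg i]
    exact hB _ (hSc i) _ ⟨j, hj, Or.inl rfl⟩
  have hg2 : ∀ j i, j < i → h' (g j) < g i := by
    intro j i hj
    rw [hg i]
    exact hB _ (hSc i) _ ⟨j, hj, Or.inr rfl⟩
  have hne : {d : Om l | ∀ i, g i < d}.Nonempty := by
    obtain ⟨b, hb⟩ := bd_Om hl (s := Set.range g) (mk_range_le.trans (mk_KK.le.trans hκl))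
    exact ⟨b, fun i => hb _ ⟨i, rfl⟩⟩
  let δ := wellFounded_lt.min {d : Om l | ∀ i, g i < d} hne
  have hδ : ∀ i, g i < δ := wellFounded_lt.min_mem {d : Om l | ∀ i, g i < d} hne
  have hlt : ∀ x < δ, ∃ i, x ≤ g i := by
    intro x hx
    by_contra hcon
    push Not at hcon
    exact wellFounded_lt.not_lt_min {d : Om l | ∀ i, g i < d} (x := x) hcon hx
  have hnm : ∀ i : KK κ, ∃ j, i < j := by
    intro i
    obtain ⟨b, hb⟩ := bd_KK hκ (s := {i}) (by
      rw [mk_singleton]; exact one_lt_aleph0.trans_le hκ.aleph0_le)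
    exact ⟨b, hb i rfl⟩
  have hnK : Nonempty (KK κ) := by
    rw [← Cardinal.mk_ne_zero_iff, mk_KK]; exact hκ.ne_zero
  refine ⟨δ, fun s hs hsδ => ?_, fun γ hγ => ?_⟩
  · choose! i hi using fun x (hx : x ∈ s) => hlt x (hsδ x hx)
    obtain ⟨k, hk⟩ := bd_KK hκ (s := i '' s) (mk_image_le.trans_lt hs)
    exact ⟨g k, hδ k, fun x hx => (hi x hx).trans_lt (hg1 _ _ (hk _ ⟨x, hx, rfl⟩))⟩
  · obtain ⟨i, hi⟩ := hlt γ hγ
    obtain ⟨j, hj⟩ := hnm i
    exact (hh' (g i) γ hi).trans ((hg2 i j hj).trans (hδ j))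

section rank

variable {Ω : Type} [LinearOrder Ω] [WellFoundedLT Ω]

/-- the rank of `x` in `a` -/
noncomputable def rk (a : Set Ω) (x : Ω) : Ordinal.{0} :=
  Ordinal.type (α := ↥(a ∩ Set.Iio x)) (· < ·)

theorem rk_lt {a : Set Ω} {x y : Ω} (hx : x ∈ a) (hxy : x < y) : rk a x < rk a y := by
  rw [rk, rk, Ordinal.type_lt_iff]
  refine ⟨⟨⟨⟨fun z => ⟨z.1, z.2.1, z.2.2.trans hxy⟩, ?_⟩, ?_⟩, ⟨x, hx, hxy⟩, ?_⟩⟩
  · intro z w h
    simp only [Subtype.mk.injEq] at h
    exact Subtype.ext h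
  · intro z w
    exact Iff.rfl
  · rintro ⟨z, hz1, hz2⟩
    constructor
    · rintro ⟨w, hw⟩
      have : w.1 = z := congrArg Subtype.val hw
      show z < x
      rw [← this]; exact w.2.2
    · intro h
      have h' : z < x := h
      exact ⟨⟨z, hz1, h'⟩, rfl⟩

theorem rk_congr {a b : Set Ω} {x : Ω} (h : a ∩ Set.Iio x = b ∩ Set.Iio x) : rk a x = rk b x := by
  have key : ∀ s t : Set Ω, s = t → Ordinal.type (α := ↥s) (· < ·) =
      Ordinal.type (α := ↥t) (· < ·) := by
    rintro s t rfl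
    rfl
  exact key _ _ h

theorem rk_lt_ord {a : Set Ω} (ha : #a < κ) (x : Ω) : rk a x < κ.ord := by
  rw [Cardinal.lt_ord, rk, Ordinal.card_type]
  exact (mk_le_mk_of_subset Set.inter_subset_left).trans_lt ha

open Classical in
/-- the rank as an element of `κ` -/
noncomputable def lab [Nonempty (KK κ)] (a : Set Ω) (x : Ω) : KK κ :=
  if h : rk a x < κ.ord then Ordinal.ToType.mk ⟨rk a x, h⟩ else Classical.arbitrary _

theorem lab_lt [Nonempty (KK κ)] {a : Set Ω} (ha : #a < κ) {x y : Ω} (hx : x ∈ a) (hxy : x < y) :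
    (lab a x : KK κ) < lab a y := by
  rw [lab, lab, dif_pos (rk_lt_ord ha x), dif_pos (rk_lt_ord ha y)]
  rw [OrderIso.lt_iff_lt]
  exact rk_lt hx hxy

theorem lab_congr [Nonempty (KK κ)] {a b : Set Ω} {x : Ω}
    (h : a ∩ Set.Iio x = b ∩ Set.Iio x) : (lab a x : KK κ) = lab b x := by
  unfold lab
  rw [rk_congr h]

theorem lab_inj [Nonempty (KK κ)] {a : Set Ω} (ha : #a < κ) {x y : Ω} (hx : x ∈ a) (hy : y ∈ a)
    (h : (lab a x : KK κ) = lab a y) : x = y := by
  rcases lt_trichotomy x y with h1 | h1 | h1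
  · exact absurd h (lab_lt ha hx h1).ne
  · exact h1
  · exact absurd h (lab_lt ha hy h1).ne'

end rank

end Pool.Agent.H12.Thread
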